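import Pool.Agent.X286.Ca.G

/-!
# Maximal periods of additive two-neighbour cellular automata (MP_25c86d_nt, Q1: true)

`R_{σ,n} = ℤ_n[x] / (x ^ σ - 1)`, `Π_σ(a,b;n)` is the eventual period of the powers of `a + b x`,
`π_σ(n)` its maximum over `a, b`.  If `p` is a prime with `π_σ(p ^ m) < p π_σ(p ^ (m-1))` for some
`σ ≥ 1`, `m ≥ 2`, then `p = 2`.  In fact `π_σ(p ^ m) = p ^ (m-1) π_σ(p)` for every odd prime `p`
(`maxPeriod_eq`).

Proof.  Let `p` be odd and let `K = π_σ(p)`.  The rule `c (1 + x)`, `2 c` a primitive root, has a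
period divisible by `lcm(σ, p - 1)` (symmetry `x ↦ 1/x`), hence some rule `f = a + b x` with
`p ∤ a b` has period `K` modulo `p`.  If `p ∤ K` then the period of `f` or of `(1 + p) f` is not `K`
modulo `p ^ 2`.  If `K = p ^ j k`, `j ≥ 1`, `p ∤ k`, then `p ^ j` divides `σ` and the same follows
from the terms of `f ^ (p ^ j)` modulo `p ^ 2` whose exponents are not divisible by `p ^ j`.
Finally, for odd `p`, a period which grows from `p` to `p ^ 2` grows at all later steps.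
-/

set_option autoImplicit false

namespace Pool.Agent.Results.MP_25c86d_nt.OddPrimesMaxPeriod

open Finset Polynomial Pool.Agent.X286.Ca

/-- `(a + b x) ^ (k + l) = (a + b x) ^ l` in `ℤ_n[x] / (x ^ σ - 1)` for some `l ≥ 0`. -/
def IsPeriod (σ n : ℕ) (a b : ZMod n) (k : ℕ) : Prop :=
  ∃ l : ℕ, (X ^ σ - 1 : (ZMod n)[X]) ∣ (C a + C b * X) ^ (k + l) - (C a + C b * X) ^ l

/-- `Π_σ(a, b; n)`: the least `k ≥ 1` which is a period. -/
noncomputable def period (σ n : ℕ) (a b : ZMod n) : ℕ :=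
  sInf {k : ℕ | 1 ≤ k ∧ IsPeriod σ n a b k}

/-- `π_σ(n)`: the maximum of `Π_σ(a, b; n)` over `a, b ∈ ℤ_n` (`n ≥ 1`). -/
noncomputable def maxPeriod (σ n : ℕ) : ℕ :=
  sSup (Set.range fun ab : ZMod n × ZMod n => period σ n ab.1 ab.2)

theorem isPeriod_iff {σ : ℕ} [NeZero σ] (n : ℕ) (a b : ℤ) (k : ℕ) :
    IsPeriod σ n (a : ZMod n) (b : ZMod n) k ↔ E (n : A σ) (el σ a b) k :=
  (E_iff n a b k).symm

theorem period_eq {σ : ℕ} [NeZero σ] (n : ℕ) (a b : ℤ) (k : ℕ)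
    (h : Per (n : A σ) (el σ a b) k) : period σ n (a : ZMod n) (b : ZMod n) = k := by
  apply le_antisymm
  · exact Nat.sInf_le ⟨h.1, (isPeriod_iff n a b k).2 h.2.1⟩
  · have hne : {k : ℕ | 1 ≤ k ∧ IsPeriod σ n (a : ZMod n) (b : ZMod n) k}.Nonempty :=
      ⟨k, h.1, (isPeriod_iff n a b k).2 h.2.1⟩
    apply le_csInf hne
    rintro j ⟨hj1, hj⟩
    exact h.2.2 j hj1 ((isPeriod_iff n a b j).1 hj)

theorem period_le {σ : ℕ} [NeZero σ] (n : ℕ) (a b : ℤ) (k : ℕ) (hk : 1 ≤ k)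
    (h : E (n : A σ) (el σ a b) k) : period σ n (a : ZMod n) (b : ZMod n) ≤ k :=
  Nat.sInf_le ⟨hk, (isPeriod_iff n a b k).2 h⟩

theorem bdd (σ n : ℕ) [NeZero n] :
    BddAbove (Set.range fun ab : ZMod n × ZMod n => period σ n ab.1 ab.2) :=
  (Set.finite_range _).bddAbove

/-- every rule has a period modulo `p` -/
theorem exists_period {σ : ℕ} [NeZero σ] {p : ℕ} (hp : p.Prime) (a b : ℤ) :
    ∃ k, Per (p : A σ) (el σ a b) k := by
  have hσ : 0 < σ := Nat.pos_of_ne_zero (NeZero.ne σ)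
  obtain ⟨e, s, hs, hse⟩ := Nat.exists_eq_pow_mul_and_not_dvd hσ.ne' p hp.ne_one
  have hs0 : 0 < s := Nat.pos_of_ne_zero (fun h0 => hs (by rw [h0]; exact dvd_zero _))
  have hcop : Nat.Coprime p s := (Nat.Prime.coprime_iff_not_dvd hp).2 hs
  have ht : 0 < s.totient := Nat.totient_pos.2 hs0
  have hx : ((1 * p ^ (e + s.totient) : ℕ) : ZMod σ) = ((1 * p ^ e : ℕ) : ZMod σ) := by
    rw [one_mul, one_mul, ZMod.natCast_eq_natCast_iff, pow_add]
    have h1 : p ^ s.totient ≡ 1 [MOD s] := Nat.ModEq.pow_totient hcop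
    have h2 : p ^ e * p ^ s.totient ≡ p ^ e * 1 [MOD (p ^ e * s)] := h1.mul_left' _
    rw [mul_one, ← hse] at h2
    exact h2
  have h1 := frobP (σ := σ) hp a b 1 (e + s.totient)
  have h2 := frobP (σ := σ) hp a b 1 e
  have h3 : elP σ a b (1 * p ^ (e + s.totient)) = elP σ a b (1 * p ^ e) := by
    rw [elP, elP, x_pow_eq hx]
  rw [h3] at h1
  have h4 := dvd_trans_sub h1 (dvd_symm_sub h2)
  rw [elP_one] at h4
  have hlt : p ^ e < p ^ (e + s.totient) := Nat.pow_lt_pow_right hp.one_lt (by omega)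
  obtain ⟨d, hd⟩ := Nat.exists_eq_add_of_le hlt.le
  have hd1 : 1 ≤ d := by omega
  obtain ⟨k, _, hk⟩ := exists_per (n := (p : A σ)) (f := el σ a b) hd1 ⟨p ^ e, by
    rw [add_comm, ← hd]; exact h4⟩
  exact ⟨k, hk⟩

theorem le_max {σ : ℕ} [NeZero σ] (n : ℕ) [NeZero n] (a b : ℤ) (k : ℕ)
    (h : Per (n : A σ) (el σ a b) k) : k ≤ maxPeriod σ n := by
  rw [← period_eq n a b k h]
  exact le_csSup (bdd σ n) ⟨((a : ZMod n), (b : ZMod n)), rfl⟩

/-- a rule with maximal period modulo `p` whose period is not the same modulo `p ^ 2` -/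
theorem exists_rule {σ : ℕ} [NeZero σ] {p : ℕ} (hp : p.Prime) (hp2 : p ≠ 2) :
    ∃ a b : ℤ, Per (p : A σ) (el σ a b) (maxPeriod σ p) ∧
      ¬ E ((p : A σ) ^ 2) (el σ a b) (maxPeriod σ p) := by
  have := Fact.mk hp
  have : NeZero p := ⟨hp.ne_zero⟩
  have hσ : 0 < σ := Nat.pos_of_ne_zero (NeZero.ne σ)
  have hp3 : 3 ≤ p := by
    have := hp.two_le
    omega
  obtain ⟨K, hK⟩ : ∃ K, K = maxPeriod σ p := ⟨_, rfl⟩
  rw [← hK]
  have hpi : Prime (p : ℤ) := Nat.prime_iff_prime_int.1 hp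
  -- the rule `c (1 + x)`
  obtain ⟨c, u, hu, hcu, hcp⟩ := exists_c (p := p) hp2
  obtain ⟨κ, hκ⟩ := exists_period (σ := σ) hp c c
  have hpk : p - 1 ∣ κ := g_pred c u hu hcu κ hκ.2.1
  have h2k : 2 ∣ κ := by
    refine dvd_trans ?_ hpk
    have := hp.eq_two_or_odd'.resolve_left hp2
    obtain ⟨t, ht⟩ := this
    exact ⟨t, by omega⟩
  have hsk : σ ∣ κ := g_sigma hp hp2 c hcp κ h2k hκ.2.1
  have hκK : κ ≤ K := by rw [hK]; exact le_max p c c κ hκ
  have hK2 : 2 ≤ K := by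
    have h1 := Nat.le_of_dvd hκ.1 hpk
    omega
  -- a rule with maximal period
  obtain ⟨a, b, hab⟩ : ∃ a b : ℤ, Per (p : A σ) (el σ a b) K := by
    have h1 : maxPeriod σ p ∈ Set.range fun ab : ZMod p × ZMod p => period σ p ab.1 ab.2 :=
      Nat.sSup_mem (Set.range_nonempty _) (bdd σ p)
    obtain ⟨⟨a, b⟩, h1⟩ := h1
    obtain ⟨a, rfl⟩ := ZMod.intCast_surjective a
    obtain ⟨b, rfl⟩ := ZMod.intCast_surjective b
    obtain ⟨k, hk⟩ := exists_period (σ := σ) hp a b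
    refine ⟨a, b, ?_⟩
    have h2 := period_eq p a b k hk
    rw [hK, ← h1]
    simp only
    rw [h2]
    exact hk
  obtain ⟨a, b, ha, hb, hab⟩ : ∃ a b : ℤ, ¬ (p : ℤ) ∣ a ∧ ¬ (p : ℤ) ∣ b ∧
      Per (p : A σ) (el σ a b) K := by
    by_cases h : (p : ℤ) ∣ a ∨ (p : ℤ) ∣ b
    · have h1 := mono_E (σ := σ) hp a b h (Nat.lcm σ (p - 1)) (Nat.dvd_lcm_left _ _)
        (Nat.dvd_lcm_right _ _)
      have h2 : 1 ≤ Nat.lcm σ (p - 1) := Nat.lcm_pos hσ (by omega)
      have h3 : K ≤ Nat.lcm σ (p - 1) := hab.2.2 _ h2 h1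
      have h4 : Nat.lcm σ (p - 1) ∣ κ := Nat.lcm_dvd hsk hpk
      have h5 := Nat.le_of_dvd hκ.1 h4
      have h6 : κ = K := by omega
      rw [h6] at hκ
      exact ⟨c, c, hcp, hcp, hκ⟩
    · push Not at h
      exact ⟨a, b, h.1, h.2, hab⟩
  have hnil : ∀ l, ¬ (p : A σ) ∣ el σ a b ^ l := by
    intro l hl
    have h1 : E (p : A σ) (el σ a b) 1 := by
      refine ⟨l, ?_⟩
      have h2 : el σ a b ^ (1 + l) - el σ a b ^ l = (el σ a b - 1) * el σ a b ^ l := by ring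
      rw [h2]
      exact hl.mul_left _
    have h2 := hab.2.2 1 le_rfl h1
    omega
  by_cases hpK : p ∣ K
  · -- the wild case
    obtain ⟨j, k, hk, hjk⟩ := Nat.exists_eq_pow_mul_and_not_dvd (show K ≠ 0 by omega) p hp.ne_one
    obtain ⟨j, rfl⟩ : ∃ j', j = j' + 1 := by
      refine ⟨j - 1, ?_⟩
      rcases Nat.eq_zero_or_pos j with h | h
      · rw [h, pow_zero, one_mul] at hjk
        rw [hjk] at hpK
        exact absurd hpK hk
      · omega
    refine ⟨a, b, hab, ?_⟩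
    rw [hjk]
    apply growth hp a b ha hb j k hk _ hnil
    by_contra hd
    have h1 := drop hp hσ a b j k (by rw [← hjk]; exact hab.2.1) hd
    have hk0 : 0 < k := Nat.pos_of_ne_zero (fun h0 => hk (by rw [h0]; exact dvd_zero _))
    have hp0 := hp.pos
    have h2 : 1 ≤ p ^ j * k := Nat.one_le_iff_ne_zero.2 (by positivity)
    have h3 := hab.2.2 _ h2 h1
    rw [hjk, pow_succ] at h3
    have h4 : 0 < p ^ j * k := h2
    nlinarith
  · -- the tame case
    by_cases hE : E ((p : A σ) ^ 2) (el σ a b) K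
    swap
    · exact ⟨a, b, hab, hE⟩
    refine ⟨(1 + p) * a, (1 + p) * b, ?_, ?_⟩
    · have hcong : (p : A σ) ∣ el σ ((1 + p) * a) ((1 + p) * b) - el σ a b := by
        refine ⟨el σ a b, ?_⟩
        rw [el, el]
        push_cast
        ring
      exact ⟨hab.1, hab.2.1.congr (dvd_symm_sub hcong),
        fun j hj1 hj => hab.2.2 j hj1 (hj.congr hcong)⟩
    · intro hE'
      obtain ⟨l1, hl1⟩ := hE.ev
      obtain ⟨l2, hl2⟩ := hE'.ev
      obtain ⟨l, hl⟩ : ∃ l, l = l1 + l2 := ⟨_, rfl⟩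
      have h1 := hl1 l (by omega)
      have h2 := hl2 l (by omega)
      obtain ⟨f, hf⟩ : ∃ f, f = el σ a b := ⟨_, rfl⟩
      have hf0 : el σ ((1 + p) * a) ((1 + p) * b) = (1 + p) * f := by
        rw [hf, el, el]
        push_cast
        ring
      rw [hf0] at h2
      rw [← hf] at h1
      obtain ⟨t, ht⟩ : (p : A σ) ^ 2 ∣ (1 + (p : A σ)) ^ K - 1 - p * K := by
        have h3 := sq_dvd_add_pow_sub_sub (p : A σ) 1 K
        simp only [one_pow, one_mul] at h3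
        have h4 : (1 + (p : A σ)) ^ K - 1 - p * K = (1 + (p : A σ)) ^ K - p * K - 1 := by ring
        rw [h4]
        exact h3
      have h3 : (p : A σ) ^ (1 + 1) ∣ (p : A σ) ^ 1 * ((1 + p) ^ l * K * f ^ l) := by
        have h4 : (p : A σ) ^ 1 * ((1 + p) ^ l * K * f ^ l) =
            (((1 + p) * f) ^ (K + l) - ((1 + p) * f) ^ l) -
            (1 + p) ^ (K + l) * (f ^ (K + l) - f ^ l) -
            (p : A σ) ^ 2 * ((1 + p) ^ l * t * f ^ l) := by
          have h5 : (1 + (p : A σ)) ^ K = 1 + p * K + (p : A σ) ^ 2 * t := by rw [← ht]; ring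
          rw [mul_pow, mul_pow, pow_add (1 + (p : A σ)), h5]
          ring
        rw [h4]
        exact dvd_sub (dvd_sub h2 (h1.mul_left _)) (dvd_mul_right _ _)
      have h4 := hreg hp.pos _ _ h3
      apply hnil l
      rw [← hf, dvd_iff_nat]
      intro r
      rw [dvd_iff_nat] at h4
      have h5 := h4 r
      have h6 : ((1 + (p : A σ)) ^ l * K * f ^ l).coeff r = ((1 + p) ^ l * K : ℤ) * (f ^ l).coeff r := by
        rw [← coeff_int_mul]
        push_cast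
        rfl
      rw [h6] at h5
      rcases hpi.dvd_or_dvd h5 with h7 | h7
      · exfalso
        rcases hpi.dvd_or_dvd h7 with h8 | h8
        · have h9 := hpi.dvd_of_dvd_pow h8
          have h10 : (p : ℤ) ∣ 1 := by
            have : (1 : ℤ) = (1 + p) - p := by ring
            rw [this]
            exact dvd_sub h9 dvd_rfl
          exact hpi.not_dvd_one h10
        · exact hpK (by exact_mod_cast h8)
      · exact h7

/-- the maximal periods modulo powers of an odd prime -/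
theorem maxPeriod_eq {σ : ℕ} (hσ : 1 ≤ σ) {p : ℕ} (hp : p.Prime) (hp2 : p ≠ 2) (m : ℕ) :
    maxPeriod σ (p ^ (m + 1)) = p ^ m * maxPeriod σ p := by
  have : NeZero σ := ⟨by omega⟩
  have : NeZero p := ⟨hp.ne_zero⟩
  have : NeZero (p ^ (m + 1)) := ⟨pow_ne_zero _ hp.ne_zero⟩
  apply le_antisymm
  · apply csSup_le (Set.range_nonempty _)
    rintro _ ⟨⟨a, b⟩, rfl⟩
    obtain ⟨a, rfl⟩ := ZMod.intCast_surjective a
    obtain ⟨b, rfl⟩ := ZMod.intCast_surjective b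
    obtain ⟨k, hk⟩ := exists_period (σ := σ) hp a b
    have h1 := hk.2.1.lift m
    have h2 : 1 ≤ p ^ m * k := Nat.one_le_iff_ne_zero.2 (by
      have := hk.1
      have := hp.pos
      positivity)
    refine (period_le (p ^ (m + 1)) a b _ h2 (by push_cast; exact h1)).trans ?_
    exact Nat.mul_le_mul_left _ (le_max p a b k hk)
  · obtain ⟨a, b, h1, h2⟩ := exists_rule (σ := σ) hp hp2
    have h3 := per_grow hp (hp.eq_two_or_odd'.resolve_left hp2) (hreg hp.pos) h1 h2 m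
    apply le_max (p ^ (m + 1)) a b
    push_cast
    exact h3

/-- **Q1**: if `π_σ(p ^ m) < ub_σ(p ^ m) = p π_σ(p ^ (m-1))` for a prime `p` and some `σ ≥ 1`,
`m ≥ 2`, then `p = 2`. -/
theorem result (p : ℕ) (hp : p.Prime)
    (h : ∃ σ m : ℕ, 1 ≤ σ ∧ 2 ≤ m ∧ maxPeriod σ (p ^ m) < p * maxPeriod σ (p ^ (m - 1))) :
    p = 2 := by
  by_contra hp2
  obtain ⟨σ, m, hσ, hm, hlt⟩ := h
  obtain ⟨m, rfl⟩ : ∃ m', m = m' + 2 := ⟨m - 2, by omega⟩
  have h1 := maxPeriod_eq hσ hp hp2 (m + 1)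
  have h2 := maxPeriod_eq hσ hp hp2 m
  have h3 : m + 2 - 1 = m + 1 := by omega
  rw [h3, h2, h1, pow_succ] at hlt
  apply lt_irrefl _ (lt_of_lt_of_le hlt _)
  apply le_of_eq
  ring

end Pool.Agent.Results.MP_25c86d_nt.OddPrimesMaxPeriod
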